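import Pool.Agent.Helper89.KN.Spec

/-! Part OG of the KN project: the area inequality for four extreme points. -/

open MeasureTheory Set Filter Topology
open scoped ENNReal

noncomputable section

namespace KN

namespace OGp

theorem vol_slices (S : Set ℂ) (hS : MeasurableSet S) :
    volume S = ∫⁻ y : ℝ, volume {x : ℝ | (⟨x, y⟩ : ℂ) ∈ S} := by
  have h2 : volume (Complex.measurableEquivRealProd.symm ⁻¹' S) = volume S :=
    (Complex.volume_preserving_equiv_real_prod.symm _).measure_preimage hS.nullMeasurableSet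
  rw [← h2, Measure.volume_eq_prod,
    Measure.prod_apply_symm (Complex.measurableEquivRealProd.symm.measurable hS)]
  rfl

/-- half of the chord length -/
def g (r t : ℝ) : ℝ≥0∞ := ENNReal.ofReal (Real.sqrt (r ^ 2 - t ^ 2))

def K (r : ℝ) (E : Set ℝ) : ℝ≥0∞ := ∫⁻ t in E, g r t

theorem K_mono {r : ℝ} {E F : Set ℝ} (h : E ⊆ F) : K r E ≤ K r F := lintegral_mono_set h

theorem K_union {r : ℝ} {E F : Set ℝ} (hF : MeasurableSet F) (hd : Disjoint E F) :
    K r (E ∪ F) = K r E + K r F := lintegral_union hF hd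

theorem K_shift {r : ℝ} (E : Set ℝ) (hE : MeasurableSet E) (c : ℝ) :
    ∫⁻ y in E, g r (y - c) = K r {t | t + c ∈ E} := by
  have hE' : MeasurableSet {t : ℝ | t + c ∈ E} := (measurable_id.add_const c) hE
  unfold K
  rw [← lintegral_indicator hE, ← lintegral_indicator hE']
  rw [← lintegral_sub_right_eq_self
    (fun t => {t : ℝ | t + c ∈ E}.indicator (fun t => g r t) t) c]
  refine lintegral_congr fun y => ?_
  by_cases h : y ∈ E
  · have h' : y - c ∈ {t : ℝ | t + c ∈ E} := by simpa using h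
    rw [indicator_of_mem h, indicator_of_mem h']
  · have h' : y - c ∉ {t : ℝ | t + c ∈ E} := by simpa using h
    rw [indicator_of_notMem h, indicator_of_notMem h']

theorem K_neg {r : ℝ} (E : Set ℝ) (hE : MeasurableSet E) : K r {t | -t ∈ E} = K r E := by
  have hE' : MeasurableSet {t : ℝ | -t ∈ E} := measurable_neg hE
  unfold K
  rw [← lintegral_indicator hE, ← lintegral_indicator hE']
  rw [← lintegral_neg_eq_self (fun t => E.indicator (fun t => g r t) t)]
  refine lintegral_congr fun y => ?_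
  by_cases h : -y ∈ E
  · have h' : y ∈ {t : ℝ | -t ∈ E} := h
    rw [indicator_of_mem h, indicator_of_mem h']
    simp [g]
  · have h' : y ∉ {t : ℝ | -t ∈ E} := h
    rw [indicator_of_notMem h, indicator_of_notMem h']

theorem K_Icc {r a b : ℝ} : K r (Icc a b) = K r (Ioc a b) := by
  unfold K
  rw [restrict_Ioc_eq_restrict_Icc]

theorem K_Ici {r a : ℝ} : K r (Ici a) = K r (Ioi a) := by
  unfold K
  rw [restrict_Ioi_eq_restrict_Ici]

/-- `∫_0^s` -/
def G (r s : ℝ) : ℝ≥0∞ := K r (Ioc 0 s)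

theorem G_mono {r s t : ℝ} (h : s ≤ t) : G r s ≤ G r t := K_mono (Ioc_subset_Ioc_right h)

theorem G_le {r s : ℝ} : G r s ≤ K r (Ioi 0) := K_mono fun _ h => h.1

theorem K_sym {r s t : ℝ} (hs : 0 ≤ s) (ht : 0 ≤ t) : K r (Icc (-s) t) = G r s + G r t := by
  have h1 : Icc (-s) t = Ico (-s) 0 ∪ Icc 0 t := by
    rw [Ico_union_Icc_eq_Icc (by linarith) ht]
  rw [h1, K_union measurableSet_Icc (by
    rw [Set.disjoint_left]
    intro x hx hx'
    exact absurd hx.2 (not_lt.mpr hx'.1))]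
  congr 1
  · have : Ico (-s) 0 = {t : ℝ | -t ∈ Ioc 0 s} := by
      ext x
      simp only [mem_Ico, mem_setOf_eq, mem_Ioc]
      constructor
      · rintro ⟨h1, h2⟩
        constructor <;> linarith
      · rintro ⟨h1, h2⟩
        constructor <;> linarith
    rw [this, K_neg _ measurableSet_Ioc]
    rfl
  · rw [K_Icc]
    rfl

theorem G_add {r s t : ℝ} (hs : 0 ≤ s) (ht : 0 ≤ t) : G r (s + t) ≤ G r s + G r t := by
  have h1 : Ioc 0 (s + t) = Ioc 0 s ∪ Ioc s (s + t) := by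
    rw [Ioc_union_Ioc_eq_Ioc hs (by linarith)]
  have h2 : G r (s + t) = G r s + K r (Ioc s (s + t)) := by
    unfold G
    rw [h1, K_union measurableSet_Ioc]
    rw [Set.disjoint_left]
    intro x hx hx'
    exact absurd hx'.1 (not_lt.mpr hx.2)
  rw [h2]
  gcongr
  have h3 : K r (Ioc s (s + t)) ≤ ∫⁻ y in Ioc s (s + t), g r (y - s) := by
    unfold K
    refine setLIntegral_mono' measurableSet_Ioc fun y hy => ?_
    unfold g
    refine ENNReal.ofReal_le_ofReal (Real.sqrt_le_sqrt ?_)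
    have : 0 ≤ y - s := by linarith [hy.1]
    nlinarith [hy.1]
  refine h3.trans ?_
  rw [K_shift _ measurableSet_Ioc]
  refine le_of_eq ?_
  unfold G
  congr 1
  ext x
  simp only [mem_setOf_eq, mem_Ioc]
  constructor
  · rintro ⟨h1, h2⟩
    constructor <;> linarith
  · rintro ⟨h1, h2⟩
    constructor <;> linarith

theorem mem_ball_iff {v z : ℂ} {r : ℝ} (hr : 0 < r) :
    z ∈ Metric.ball v r ↔ (z.re - v.re) ^ 2 + (z.im - v.im) ^ 2 < r ^ 2 := by
  rw [Metric.mem_ball, Complex.dist_eq_re_im, Real.sqrt_lt' hr]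

theorem slice_left {r c d : ℝ} :
    {x : ℝ | x < c ∧ (x - c) ^ 2 + d ^ 2 < r ^ 2} = Ioo (c - Real.sqrt (r ^ 2 - d ^ 2)) c := by
  ext x
  simp only [mem_setOf_eq, mem_Ioo]
  constructor
  · rintro ⟨h1, h2⟩
    have h3 : c - x < Real.sqrt (r ^ 2 - d ^ 2) :=
      (Real.lt_sqrt (by linarith)).mpr (by nlinarith)
    exact ⟨by linarith, h1⟩
  · rintro ⟨h1, h2⟩
    have h3 : (c - x) ^ 2 < r ^ 2 - d ^ 2 :=
      (Real.lt_sqrt (by linarith)).mp (by linarith)
    exact ⟨h2, by nlinarith⟩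

theorem slice_right {r c d : ℝ} :
    {x : ℝ | c < x ∧ (x - c) ^ 2 + d ^ 2 < r ^ 2} = Ioo c (c + Real.sqrt (r ^ 2 - d ^ 2)) := by
  ext x
  simp only [mem_setOf_eq, mem_Ioo]
  constructor
  · rintro ⟨h1, h2⟩
    have h3 : x - c < Real.sqrt (r ^ 2 - d ^ 2) :=
      (Real.lt_sqrt (by linarith)).mpr (by nlinarith)
    exact ⟨h1, by linarith⟩
  · rintro ⟨h1, h2⟩
    have h3 : (x - c) ^ 2 < r ^ 2 - d ^ 2 :=
      (Real.lt_sqrt (by linarith)).mp (by linarith)
    exact ⟨h1, by nlinarith⟩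

theorem slice_full {r c d : ℝ} :
    {x : ℝ | (x - c) ^ 2 + d ^ 2 < r ^ 2} =
      Ioo (c - Real.sqrt (r ^ 2 - d ^ 2)) (c + Real.sqrt (r ^ 2 - d ^ 2)) := by
  ext x
  simp only [mem_setOf_eq, mem_Ioo]
  constructor
  · intro h2
    have h3 : |x - c| < Real.sqrt (r ^ 2 - d ^ 2) :=
      (Real.lt_sqrt (abs_nonneg _)).mpr (by rw [sq_abs]; linarith)
    rw [abs_lt] at h3
    exact ⟨by linarith, by linarith⟩
  · rintro ⟨h1, h2⟩
    have h3 : |x - c| < Real.sqrt (r ^ 2 - d ^ 2) := by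
      rw [abs_lt]
      exact ⟨by linarith, by linarith⟩
    have h4 := (Real.lt_sqrt (abs_nonneg _)).mp h3
    rw [sq_abs] at h4
    linarith

/-- left piece in the strip -/
theorem vol_left {r : ℝ} (hr : 0 < r) (v : ℂ) (yb yt : ℝ) :
    volume (Metric.ball v r ∩ {z : ℂ | z.re < v.re ∧ yb ≤ z.im ∧ z.im ≤ yt}) =
      K r (Icc (yb - v.im) (yt - v.im)) := by
  have hm : MeasurableSet (Metric.ball v r ∩ {z : ℂ | z.re < v.re ∧ yb ≤ z.im ∧ z.im ≤ yt}) := by
    refine measurableSet_ball.inter ?_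
    refine (measurableSet_lt Complex.measurable_re measurable_const).inter ?_
    exact (measurableSet_le measurable_const Complex.measurable_im).inter
      (measurableSet_le Complex.measurable_im measurable_const)
  rw [vol_slices _ hm]
  have h : ∀ y : ℝ, volume {x : ℝ | (⟨x, y⟩ : ℂ) ∈
      Metric.ball v r ∩ {z : ℂ | z.re < v.re ∧ yb ≤ z.im ∧ z.im ≤ yt}} =
      (Icc yb yt).indicator (fun y => g r (y - v.im)) y := by
    intro y
    by_cases hy : y ∈ Icc yb yt
    · rw [indicator_of_mem hy]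
      have : {x : ℝ | (⟨x, y⟩ : ℂ) ∈
          Metric.ball v r ∩ {z : ℂ | z.re < v.re ∧ yb ≤ z.im ∧ z.im ≤ yt}} =
          {x : ℝ | x < v.re ∧ (x - v.re) ^ 2 + (y - v.im) ^ 2 < r ^ 2} := by
        ext x
        simp only [mem_setOf_eq, mem_inter_iff, mem_ball_iff hr]
        constructor
        · rintro ⟨h1, h2, h3, h4⟩
          exact ⟨h2, h1⟩
        · rintro ⟨h1, h2⟩
          exact ⟨h2, h1, hy.1, hy.2⟩
      rw [this, slice_left, Real.volume_Ioo]
      unfold g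
      congr 1
      ring
    · rw [indicator_of_notMem hy]
      have : {x : ℝ | (⟨x, y⟩ : ℂ) ∈
          Metric.ball v r ∩ {z : ℂ | z.re < v.re ∧ yb ≤ z.im ∧ z.im ≤ yt}} = ∅ := by
        ext x
        simp only [mem_setOf_eq, mem_inter_iff, mem_empty_iff_false, iff_false]
        rintro ⟨-, -, h3, h4⟩
        exact hy ⟨h3, h4⟩
      rw [this, measure_empty]
  rw [lintegral_congr h, lintegral_indicator measurableSet_Icc, K_shift _ measurableSet_Icc]
  congr 1
  ext t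
  simp only [mem_setOf_eq, mem_Icc]
  constructor
  · rintro ⟨h1, h2⟩
    constructor <;> linarith
  · rintro ⟨h1, h2⟩
    constructor <;> linarith

/-- right piece in the strip -/
theorem vol_right {r : ℝ} (hr : 0 < r) (v : ℂ) (yb yt : ℝ) :
    volume (Metric.ball v r ∩ {z : ℂ | v.re < z.re ∧ yb ≤ z.im ∧ z.im ≤ yt}) =
      K r (Icc (yb - v.im) (yt - v.im)) := by
  have hm : MeasurableSet (Metric.ball v r ∩ {z : ℂ | v.re < z.re ∧ yb ≤ z.im ∧ z.im ≤ yt}) := by
    refine measurableSet_ball.inter ?_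
    refine (measurableSet_lt measurable_const Complex.measurable_re).inter ?_
    exact (measurableSet_le measurable_const Complex.measurable_im).inter
      (measurableSet_le Complex.measurable_im measurable_const)
  rw [vol_slices _ hm]
  have h : ∀ y : ℝ, volume {x : ℝ | (⟨x, y⟩ : ℂ) ∈
      Metric.ball v r ∩ {z : ℂ | v.re < z.re ∧ yb ≤ z.im ∧ z.im ≤ yt}} =
      (Icc yb yt).indicator (fun y => g r (y - v.im)) y := by
    intro y
    by_cases hy : y ∈ Icc yb yt
    · rw [indicator_of_mem hy]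
      have : {x : ℝ | (⟨x, y⟩ : ℂ) ∈
          Metric.ball v r ∩ {z : ℂ | v.re < z.re ∧ yb ≤ z.im ∧ z.im ≤ yt}} =
          {x : ℝ | v.re < x ∧ (x - v.re) ^ 2 + (y - v.im) ^ 2 < r ^ 2} := by
        ext x
        simp only [mem_setOf_eq, mem_inter_iff, mem_ball_iff hr]
        constructor
        · rintro ⟨h1, h2, h3, h4⟩
          exact ⟨h2, h1⟩
        · rintro ⟨h1, h2⟩
          exact ⟨h2, h1, hy.1, hy.2⟩
      rw [this, slice_right, Real.volume_Ioo]
      unfold g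
      congr 1
      ring
    · rw [indicator_of_notMem hy]
      have : {x : ℝ | (⟨x, y⟩ : ℂ) ∈
          Metric.ball v r ∩ {z : ℂ | v.re < z.re ∧ yb ≤ z.im ∧ z.im ≤ yt}} = ∅ := by
        ext x
        simp only [mem_setOf_eq, mem_inter_iff, mem_empty_iff_false, iff_false]
        rintro ⟨-, -, h3, h4⟩
        exact hy ⟨h3, h4⟩
      rw [this, measure_empty]
  rw [lintegral_congr h, lintegral_indicator measurableSet_Icc, K_shift _ measurableSet_Icc]
  congr 1
  ext t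
  simp only [mem_setOf_eq, mem_Icc]
  constructor
  · rintro ⟨h1, h2⟩
    constructor <;> linarith
  · rintro ⟨h1, h2⟩
    constructor <;> linarith

/-- the part of the ball in the box -/
theorem vol_box_le {r : ℝ} (hr : 0 < r) (v : ℂ) (xr yb yt : ℝ) :
    volume (Metric.ball v r ∩ Box v.re xr yb yt) ≤ K r (Icc (yb - v.im) (yt - v.im)) := by
  have hm : MeasurableSet (Metric.ball v r ∩ {z : ℂ | v.re ≤ z.re ∧ yb ≤ z.im ∧ z.im ≤ yt}) := by
    refine measurableSet_ball.inter ?_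
    refine (measurableSet_le measurable_const Complex.measurable_re).inter ?_
    exact (measurableSet_le measurable_const Complex.measurable_im).inter
      (measurableSet_le Complex.measurable_im measurable_const)
  have hsub : Metric.ball v r ∩ Box v.re xr yb yt ⊆
      Metric.ball v r ∩ {z : ℂ | v.re ≤ z.re ∧ yb ≤ z.im ∧ z.im ≤ yt} := by
    rintro z ⟨h1, h2, h3, h4, h5⟩
    exact ⟨h1, h2, h4, h5⟩
  refine (measure_mono hsub).trans ?_
  rw [vol_slices _ hm]
  have h : ∀ y : ℝ, volume {x : ℝ | (⟨x, y⟩ : ℂ) ∈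
      Metric.ball v r ∩ {z : ℂ | v.re ≤ z.re ∧ yb ≤ z.im ∧ z.im ≤ yt}} ≤
      (Icc yb yt).indicator (fun y => g r (y - v.im)) y := by
    intro y
    by_cases hy : y ∈ Icc yb yt
    · rw [indicator_of_mem hy]
      have : {x : ℝ | (⟨x, y⟩ : ℂ) ∈
          Metric.ball v r ∩ {z : ℂ | v.re ≤ z.re ∧ yb ≤ z.im ∧ z.im ≤ yt}} ⊆
          Icc v.re (v.re + Real.sqrt (r ^ 2 - (y - v.im) ^ 2)) := by
        intro x hx
        simp only [mem_setOf_eq, mem_inter_iff, mem_ball_iff hr] at hx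
        obtain ⟨h1, h2, h3, h4⟩ := hx
        have h5 : x - v.re < Real.sqrt (r ^ 2 - (y - v.im) ^ 2) :=
          (Real.lt_sqrt (by linarith)).mpr (by linarith)
        exact ⟨h2, by linarith⟩
      refine (measure_mono this).trans ?_
      rw [Real.volume_Icc]
      unfold g
      refine ENNReal.ofReal_le_ofReal ?_
      linarith
    · rw [indicator_of_notMem hy]
      have : {x : ℝ | (⟨x, y⟩ : ℂ) ∈
          Metric.ball v r ∩ {z : ℂ | v.re ≤ z.re ∧ yb ≤ z.im ∧ z.im ≤ yt}} = ∅ := by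
        ext x
        simp only [mem_setOf_eq, mem_inter_iff, mem_empty_iff_false, iff_false]
        rintro ⟨-, -, h3, h4⟩
        exact hy ⟨h3, h4⟩
      rw [this, measure_empty]
  refine (lintegral_mono h).trans ?_
  rw [lintegral_indicator measurableSet_Icc, K_shift _ measurableSet_Icc]
  refine le_of_eq ?_
  congr 1
  ext t
  simp only [mem_setOf_eq, mem_Icc]
  constructor
  · rintro ⟨h1, h2⟩
    constructor <;> linarith
  · rintro ⟨h1, h2⟩
    constructor <;> linarith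

/-- a part of the ball given by a condition on the height -/
theorem vol_height {r : ℝ} (hr : 0 < r) (v : ℂ) (E : Set ℝ) (hE : MeasurableSet E) :
    volume (Metric.ball v r ∩ {z : ℂ | z.im ∈ E}) = 2 * K r {t | t + v.im ∈ E} := by
  have hm : MeasurableSet (Metric.ball v r ∩ {z : ℂ | z.im ∈ E}) :=
    measurableSet_ball.inter (Complex.measurable_im hE)
  rw [vol_slices _ hm]
  have h : ∀ y : ℝ, volume {x : ℝ | (⟨x, y⟩ : ℂ) ∈ Metric.ball v r ∩ {z : ℂ | z.im ∈ E}} =
      E.indicator (fun y => 2 * g r (y - v.im)) y := by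
    intro y
    by_cases hy : y ∈ E
    · rw [indicator_of_mem hy]
      have : {x : ℝ | (⟨x, y⟩ : ℂ) ∈ Metric.ball v r ∩ {z : ℂ | z.im ∈ E}} =
          {x : ℝ | (x - v.re) ^ 2 + (y - v.im) ^ 2 < r ^ 2} := by
        ext x
        simp only [mem_setOf_eq, mem_inter_iff, mem_ball_iff hr]
        constructor
        · rintro ⟨h1, h2⟩
          exact h1
        · intro h1
          exact ⟨h1, hy⟩
      rw [this, slice_full, Real.volume_Ioo]
      unfold g
      rw [show (2 : ℝ≥0∞) = ENNReal.ofReal 2 by simp, ← ENNReal.ofReal_mul (by norm_num)]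
      congr 1
      ring
    · rw [indicator_of_notMem hy]
      have : {x : ℝ | (⟨x, y⟩ : ℂ) ∈ Metric.ball v r ∩ {z : ℂ | z.im ∈ E}} = ∅ := by
        ext x
        simp only [mem_setOf_eq, mem_inter_iff, mem_empty_iff_false, iff_false]
        rintro ⟨-, h3⟩
        exact hy h3
      rw [this, measure_empty]
  rw [lintegral_congr h, lintegral_indicator hE, lintegral_const_mul' _ _ (by simp),
    K_shift _ hE]

theorem vol_up {r : ℝ} (hr : 0 < r) (v : ℂ) :
    volume (Metric.ball v r ∩ {z : ℂ | v.im < z.im}) = 2 * K r (Ioi 0) := by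
  have h := vol_height hr v (Ioi v.im) measurableSet_Ioi
  have h2 : {t : ℝ | t + v.im ∈ Ioi v.im} = Ioi 0 := by
    ext t
    simp
  rw [h2] at h
  exact h

theorem vol_down {r : ℝ} (hr : 0 < r) (v : ℂ) :
    volume (Metric.ball v r ∩ {z : ℂ | z.im < v.im}) = 2 * K r (Ioi 0) := by
  have h := vol_height hr v (Iio v.im) measurableSet_Iio
  have h2 : {t : ℝ | t + v.im ∈ Iio v.im} = {t : ℝ | -t ∈ Ioi 0} := by
    ext t
    simp
  rw [h2, K_neg _ measurableSet_Ioi] at h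
  exact h

theorem four_K {r : ℝ} (hr : 0 < r) : 4 * K r (Ioi 0) = ENNReal.ofReal (Real.pi * r ^ 2) := by
  have h := vol_height hr 0 univ MeasurableSet.univ
  have h2 : {t : ℝ | t + (0 : ℂ).im ∈ (univ : Set ℝ)} = Iio 0 ∪ Ici 0 := by
    ext t
    simp
  have h3 : K r (Iio 0) = K r (Ioi 0) := by
    have : (Iio 0 : Set ℝ) = {t : ℝ | -t ∈ Ioi 0} := by
      ext t
      simp
    rw [this, K_neg _ measurableSet_Ioi]
  rw [h2, K_union measurableSet_Ici (by
    rw [Set.disjoint_left]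
    intro x hx hx'
    have hx1 : x < 0 := hx
    have hx2 : 0 ≤ x := hx'
    linarith), K_Ici, h3] at h
  have h4 : (Metric.ball (0 : ℂ) r ∩ {z : ℂ | z.im ∈ (univ : Set ℝ)}) = Metric.ball 0 r := by
    simp
  rw [h4, Complex.volume_ball] at h
  have h5 : 4 * K r (Ioi 0) = 2 * (K r (Ioi 0) + K r (Ioi 0)) := by ring
  rw [h5, ← h, ← ENNReal.ofReal_coe_nnreal, ← ENNReal.ofReal_pow hr.le,
    ← ENNReal.ofReal_mul (by positivity)]
  congr 1
  rw [NNReal.coe_real_pi]
  ring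

theorem K_ne_top {r : ℝ} (hr : 0 < r) (E : Set ℝ) (hE : E ⊆ Ioi 0) : K r E ≠ ⊤ := by
  have h := four_K hr
  intro h1
  have h2 : K r (Ioi 0) = ⊤ := top_le_iff.mp (h1 ▸ K_mono hE)
  rw [h2] at h
  have : (4 : ℝ≥0∞) * ⊤ = ⊤ := ENNReal.mul_top (by norm_num)
  rw [this] at h
  exact ENNReal.ofReal_ne_top h.symm

/-- the case `v₀ = vl`, part one -/
theorem main (xl xr yb yt r : ℝ) (vl vr vt vb : ℂ) (hr : 0 < r) (h1 : vl.re = xl) (h2 : vr.re = xr)
    (h3 : vt.im = yt) (h4 : vb.im = yb) (hl : vl ∈ Box xl xr yb yt) (hrr : vr ∈ Box xl xr yb yt) :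
    (7 / 2) * (volume (Metric.ball vl r ∩ Box xl xr yb yt)).toReal ≤
      (volume ((Metric.ball vl r ∪ Metric.ball vr r ∪ Metric.ball vt r ∪ Metric.ball vb r) \
        Box xl xr yb yt)).toReal ∧
    Real.pi * r ^ 2 ≤
      (volume ((Metric.ball vl r ∪ Metric.ball vr r ∪ Metric.ball vt r ∪ Metric.ball vb r) \
        Box xl xr yb yt)).toReal := by
  have hx : xl ≤ xr := hl.1.trans hl.2.1
  have hy : yb ≤ yt := hl.2.2.1.trans hl.2.2.2
  set U := (Metric.ball vl r ∪ Metric.ball vr r ∪ Metric.ball vt r ∪ Metric.ball vb r) \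
        Box xl xr yb yt with hU
  set P1 := Metric.ball vl r ∩ {z : ℂ | z.re < vl.re ∧ yb ≤ z.im ∧ z.im ≤ yt} with hP1
  set P2 := Metric.ball vr r ∩ {z : ℂ | vr.re < z.re ∧ yb ≤ z.im ∧ z.im ≤ yt} with hP2
  set P3 := Metric.ball vt r ∩ {z : ℂ | vt.im < z.im} with hP3
  set P4 := Metric.ball vb r ∩ {z : ℂ | z.im < vb.im} with hP4
  have mP2 : MeasurableSet P2 := by
    refine measurableSet_ball.inter ?_
    refine (measurableSet_lt measurable_const Complex.measurable_re).inter ?_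
    exact (measurableSet_le measurable_const Complex.measurable_im).inter
      (measurableSet_le Complex.measurable_im measurable_const)
  have mP3 : MeasurableSet P3 :=
    measurableSet_ball.inter (measurableSet_lt measurable_const Complex.measurable_im)
  have mP4 : MeasurableSet P4 :=
    measurableSet_ball.inter (measurableSet_lt Complex.measurable_im measurable_const)
  have hsub : ((P1 ∪ P2) ∪ P3) ∪ P4 ⊆ U := by
    rintro z (((hz | hz) | hz) | hz)
    · refine ⟨Or.inl (Or.inl (Or.inl hz.1)), fun hb => ?_⟩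
      have := hz.2.1
      have := hb.1
      linarith
    · refine ⟨Or.inl (Or.inl (Or.inr hz.1)), fun hb => ?_⟩
      have := hz.2.1
      have := hb.2.1
      linarith
    · refine ⟨Or.inl (Or.inr hz.1), fun hb => ?_⟩
      have : vt.im < z.im := hz.2
      have := hb.2.2.2
      linarith
    · refine ⟨Or.inr hz.1, fun hb => ?_⟩
      have : z.im < vb.im := hz.2
      have := hb.2.2.1
      linarith
  have d12 : Disjoint P1 P2 := by
    rw [Set.disjoint_left]
    intro z hz hz'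
    have := hz.2.1
    have := hz'.2.1
    linarith
  have d3 : Disjoint (P1 ∪ P2) P3 := by
    rw [Set.disjoint_left]
    rintro z (hz | hz) hz'
    · have : vt.im < z.im := hz'.2
      have := hz.2.2.2
      linarith
    · have : vt.im < z.im := hz'.2
      have := hz.2.2.2
      linarith
  have d4 : Disjoint ((P1 ∪ P2) ∪ P3) P4 := by
    rw [Set.disjoint_left]
    rintro z ((hz | hz) | hz) hz'
    · have : z.im < vb.im := hz'.2
      have := hz.2.2.1
      linarith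
    · have : z.im < vb.im := hz'.2
      have := hz.2.2.1
      linarith
    · have : z.im < vb.im := hz'.2
      have : vt.im < z.im := hz.2
      linarith
  have hsum : volume P1 + volume P2 + volume P3 + volume P4 ≤ volume U := by
    rw [← measure_union d12 mP2, ← measure_union d3 mP3, ← measure_union d4 mP4]
    exact measure_mono hsub
  set s := vl.im - yb with hs
  set t := yt - vl.im with ht
  set s' := vr.im - yb with hs'
  set t' := yt - vr.im with ht'
  have hs0 : 0 ≤ s := by linarith [hl.2.2.1]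
  have ht0 : 0 ≤ t := by linarith [hl.2.2.2]
  have hs0' : 0 ≤ s' := by linarith [hrr.2.2.1]
  have ht0' : 0 ≤ t' := by linarith [hrr.2.2.2]
  have e1 : volume P1 = G r s + G r t := by
    rw [hP1, vol_left hr, show yb - vl.im = -s by rw [hs]; ring, K_sym hs0 ht0]
  have e2 : volume P2 = G r s' + G r t' := by
    rw [hP2, vol_right hr, show yb - vr.im = -s' by rw [hs']; ring, K_sym hs0' ht0']
  have e3 : volume P3 = 2 * K r (Ioi 0) := vol_up hr vt
  have e4 : volume P4 = 2 * K r (Ioi 0) := vol_down hr vb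
  have e5 : volume (Metric.ball vl r ∩ Box xl xr yb yt) ≤ G r s + G r t := by
    have := vol_box_le hr vl xr yb yt
    rw [h1, show yb - vl.im = -s by rw [hs]; ring, K_sym hs0 ht0] at this
    exact this
  have e6 : G r (s' + t') ≤ G r s' + G r t' := G_add hs0' ht0'
  have e7 : G r s ≤ G r (s' + t') := G_mono (by linarith)
  have e8 : G r t ≤ G r (s' + t') := G_mono (by linarith)
  have e9 : G r s ≤ K r (Ioi 0) := G_le
  have e10 : G r t ≤ K r (Ioi 0) := G_le
  have hfU : volume U ≠ ⊤ := by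
    refine ne_of_lt (lt_of_le_of_lt (measure_mono diff_subset) ?_)
    refine lt_of_le_of_lt (measure_union_le _ _) (ENNReal.add_lt_top.mpr ⟨?_, measure_ball_lt_top⟩)
    refine lt_of_le_of_lt (measure_union_le _ _) (ENNReal.add_lt_top.mpr ⟨?_, measure_ball_lt_top⟩)
    exact lt_of_le_of_lt (measure_union_le _ _)
      (ENNReal.add_lt_top.mpr ⟨measure_ball_lt_top, measure_ball_lt_top⟩)
  have fs : G r s ≠ ⊤ := K_ne_top hr _ fun _ h => h.1
  have ft : G r t ≠ ⊤ := K_ne_top hr _ fun _ h => h.1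
  have fs' : G r s' ≠ ⊤ := K_ne_top hr _ fun _ h => h.1
  have ft' : G r t' ≠ ⊤ := K_ne_top hr _ fun _ h => h.1
  have fH : G r (s' + t') ≠ ⊤ := K_ne_top hr _ fun _ h => h.1
  have fK : K r (Ioi 0) ≠ ⊤ := K_ne_top hr _ Subset.rfl
  have hpi : 4 * (K r (Ioi 0)).toReal = Real.pi * r ^ 2 := by
    have := congrArg ENNReal.toReal (four_K hr)
    rw [ENNReal.toReal_mul, ENNReal.toReal_ofReal (by positivity)] at this
    simpa using this
  rw [e1, e2, e3, e4] at hsum
  have r1 : (volume (Metric.ball vl r ∩ Box xl xr yb yt)).toReal ≤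
      (G r s).toReal + (G r t).toReal := by
    rw [← ENNReal.toReal_add fs ft]
    exact ENNReal.toReal_mono (ENNReal.add_ne_top.mpr ⟨fs, ft⟩) e5
  have r2 : (G r (s' + t')).toReal ≤ (G r s').toReal + (G r t').toReal := by
    rw [← ENNReal.toReal_add fs' ft']
    exact ENNReal.toReal_mono (ENNReal.add_ne_top.mpr ⟨fs', ft'⟩) e6
  have r3 : (G r s).toReal ≤ (G r (s' + t')).toReal := ENNReal.toReal_mono fH e7
  have r4 : (G r t).toReal ≤ (G r (s' + t')).toReal := ENNReal.toReal_mono fH e8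
  have r5 : (G r s).toReal ≤ (K r (Ioi 0)).toReal := ENNReal.toReal_mono fK e9
  have r6 : (G r t).toReal ≤ (K r (Ioi 0)).toReal := ENNReal.toReal_mono fK e10
  have r7 : ((G r s).toReal + (G r t).toReal) + ((G r s').toReal + (G r t').toReal) +
      2 * (K r (Ioi 0)).toReal + 2 * (K r (Ioi 0)).toReal ≤ (volume U).toReal := by
    have := ENNReal.toReal_mono hfU hsum
    have f2K : 2 * K r (Ioi 0) ≠ ⊤ := ENNReal.mul_ne_top (by simp) fK
    have fst : G r s + G r t ≠ ⊤ := ENNReal.add_ne_top.mpr ⟨fs, ft⟩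
    have fst' : G r s' + G r t' ≠ ⊤ := ENNReal.add_ne_top.mpr ⟨fs', ft'⟩
    rw [ENNReal.toReal_add (ENNReal.add_ne_top.mpr ⟨ENNReal.add_ne_top.mpr ⟨fst, fst'⟩, f2K⟩) f2K,
      ENNReal.toReal_add (ENNReal.add_ne_top.mpr ⟨fst, fst'⟩) f2K,
      ENNReal.toReal_add fst fst', ENNReal.toReal_add fs ft, ENNReal.toReal_add fs' ft',
      ENNReal.toReal_mul] at this
    simpa using this
  have p1 : 0 ≤ (G r s).toReal := ENNReal.toReal_nonneg
  have p2 : 0 ≤ (G r t).toReal := ENNReal.toReal_nonneg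
  have p3 : 0 ≤ (G r s').toReal := ENNReal.toReal_nonneg
  have p4 : 0 ≤ (G r t').toReal := ENNReal.toReal_nonneg
  constructor
  · linarith
  · linarith

/-- reflection `x ↦ -x` -/
def τ₁ : ℂ ≃ₗᵢ[ℝ] ℂ := Complex.conjLIE.trans (LinearIsometryEquiv.neg ℝ)

/-- transposition -/
def τ₂ : ℂ ≃ₗᵢ[ℝ] ℂ := Complex.conjLIE.trans (rotation (Circle.exp (Real.pi / 2)))

theorem τ₁_re (z : ℂ) : (τ₁ z).re = -z.re := by simp [τ₁]
theorem τ₁_im (z : ℂ) : (τ₁ z).im = z.im := by simp [τ₁]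

theorem exp_half : Complex.exp ((Real.pi : ℂ) / 2 * Complex.I) = Complex.I :=
  Complex.exp_pi_div_two_mul_I

theorem τ₂_apply (z : ℂ) : τ₂ z = Complex.I * (starRingEnd ℂ) z := by
  simp [τ₂, rotation_apply, Circle.coe_exp, exp_half]

theorem τ₂_re (z : ℂ) : (τ₂ z).re = z.im := by simp [τ₂_apply]
theorem τ₂_im (z : ℂ) : (τ₂ z).im = z.re := by simp [τ₂_apply]

theorem vol_tr (τ : ℂ ≃ₗᵢ[ℝ] ℂ) (S : Set ℂ) (hS : MeasurableSet S) :
    volume (τ ⁻¹' S) = volume S := τ.measurePreserving.measure_preimage hS.nullMeasurableSet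

/-- the conclusion -/
def Concl (r : ℝ) (B0 U : Set ℂ) : Prop :=
  (7 / 2) * (volume B0).toReal ≤ (volume U).toReal ∧ Real.pi * r ^ 2 ≤ (volume U).toReal

theorem Concl_tr (τ : ℂ ≃ₗᵢ[ℝ] ℂ) {r : ℝ} {B0 U : Set ℂ} (hB : MeasurableSet B0)
    (hU : MeasurableSet U) (h : Concl r (τ ⁻¹' B0) (τ ⁻¹' U)) : Concl r B0 U := by
  unfold Concl at h ⊢
  rwa [vol_tr τ _ hB, vol_tr τ _ hU] at h

theorem mBox (xl xr yb yt : ℝ) : MeasurableSet (Box xl xr yb yt) := by
  refine (measurableSet_le measurable_const Complex.measurable_re).inter ?_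
  refine (measurableSet_le Complex.measurable_re measurable_const).inter ?_
  exact (measurableSet_le measurable_const Complex.measurable_im).inter
      (measurableSet_le Complex.measurable_im measurable_const)

theorem mU (v1 v2 v3 v4 : ℂ) (r xl xr yb yt : ℝ) :
    MeasurableSet ((Metric.ball v1 r ∪ Metric.ball v2 r ∪ Metric.ball v3 r ∪ Metric.ball v4 r) \
        Box xl xr yb yt) :=
  (((measurableSet_ball.union measurableSet_ball).union measurableSet_ball).union
    measurableSet_ball).diff (mBox _ _ _ _)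

theorem τ₁_ball {r : ℝ} (hr : 0 < r) (v z : ℂ) :
    τ₁ z ∈ Metric.ball v r ↔ z ∈ Metric.ball (τ₁ v) r := by
  rw [mem_ball_iff hr, mem_ball_iff hr, τ₁_re, τ₁_im, τ₁_re, τ₁_im]
  rw [show (-z.re - v.re) ^ 2 = (z.re - -v.re) ^ 2 by ring]

theorem τ₂_ball {r : ℝ} (hr : 0 < r) (v z : ℂ) :
    τ₂ z ∈ Metric.ball v r ↔ z ∈ Metric.ball (τ₂ v) r := by
  rw [mem_ball_iff hr, mem_ball_iff hr, τ₂_re, τ₂_im, τ₂_re, τ₂_im, add_comm]

theorem τ₁_Box (xl xr yb yt : ℝ) (z : ℂ) :
    τ₁ z ∈ Box xl xr yb yt ↔ z ∈ Box (-xr) (-xl) yb yt := by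
  unfold Box
  simp only [mem_setOf_eq, τ₁_re, τ₁_im]
  constructor
  · rintro ⟨a, b, c, d⟩
    exact ⟨by linarith, by linarith, c, d⟩
  · rintro ⟨a, b, c, d⟩
    exact ⟨by linarith, by linarith, c, d⟩

theorem τ₂_Box (xl xr yb yt : ℝ) (z : ℂ) :
    τ₂ z ∈ Box xl xr yb yt ↔ z ∈ Box yb yt xl xr := by
  unfold Box
  simp only [mem_setOf_eq, τ₂_re, τ₂_im]
  constructor
  · rintro ⟨a, b, c, d⟩
    exact ⟨c, d, a, b⟩
  · rintro ⟨a, b, c, d⟩
    exact ⟨c, d, a, b⟩

theorem main_l (xl xr yb yt r : ℝ) (vl vr vt vb : ℂ) (hr : 0 < r) (h1 : vl.re = xl)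
    (h2 : vr.re = xr) (h3 : vt.im = yt) (h4 : vb.im = yb) (hl : vl ∈ Box xl xr yb yt)
    (hrr : vr ∈ Box xl xr yb yt) :
    Concl r (Metric.ball vl r ∩ Box xl xr yb yt)
      ((Metric.ball vl r ∪ Metric.ball vr r ∪ Metric.ball vt r ∪ Metric.ball vb r) \
        Box xl xr yb yt) :=
  main xl xr yb yt r vl vr vt vb hr h1 h2 h3 h4 hl hrr

theorem main_r (xl xr yb yt r : ℝ) (vl vr vt vb : ℂ) (hr : 0 < r) (h1 : vl.re = xl)
    (h2 : vr.re = xr) (h3 : vt.im = yt) (h4 : vb.im = yb) (hl : vl ∈ Box xl xr yb yt)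
    (hrr : vr ∈ Box xl xr yb yt) :
    Concl r (Metric.ball vr r ∩ Box xl xr yb yt)
      ((Metric.ball vl r ∪ Metric.ball vr r ∪ Metric.ball vt r ∪ Metric.ball vb r) \
        Box xl xr yb yt) := by
  refine Concl_tr τ₁ (measurableSet_ball.inter (mBox _ _ _ _)) (mU _ _ _ _ _ _ _ _ _) ?_
  have h := main_l (-xr) (-xl) yb yt r (τ₁ vr) (τ₁ vl) (τ₁ vt) (τ₁ vb) hr
    (by rw [τ₁_re, h2]) (by rw [τ₁_re, h1]) (by rw [τ₁_im, h3]) (by rw [τ₁_im, h4])
    (by rw [← τ₁_Box]; simpa [τ₁] using hrr) (by rw [← τ₁_Box]; simpa [τ₁] using hl)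
  have e1 : τ₁ ⁻¹' (Metric.ball vr r ∩ Box xl xr yb yt) =
      Metric.ball (τ₁ vr) r ∩ Box (-xr) (-xl) yb yt := by
    ext z
    simp only [mem_preimage, mem_inter_iff, τ₁_ball hr, τ₁_Box]
  have e2 : τ₁ ⁻¹' ((Metric.ball vl r ∪ Metric.ball vr r ∪ Metric.ball vt r ∪ Metric.ball vb r) \
        Box xl xr yb yt) = (Metric.ball (τ₁ vr) r ∪ Metric.ball (τ₁ vl) r ∪
        Metric.ball (τ₁ vt) r ∪ Metric.ball (τ₁ vb) r) \ Box (-xr) (-xl) yb yt := by
    ext z
    simp only [mem_preimage, mem_diff, mem_union, τ₁_ball hr, τ₁_Box]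
    tauto
  rw [e1, e2]
  exact h

theorem τ₂_τ₂ (z : ℂ) : τ₂ (τ₂ z) = z := by
  apply Complex.ext
  · rw [τ₂_re, τ₂_im]
  · rw [τ₂_im, τ₂_re]

theorem main_b (xl xr yb yt r : ℝ) (vl vr vt vb : ℂ) (hr : 0 < r) (h1 : vl.re = xl)
    (h2 : vr.re = xr) (h3 : vt.im = yt) (h4 : vb.im = yb) (ht : vt ∈ Box xl xr yb yt)
    (hb : vb ∈ Box xl xr yb yt) :
    Concl r (Metric.ball vb r ∩ Box xl xr yb yt)
      ((Metric.ball vl r ∪ Metric.ball vr r ∪ Metric.ball vt r ∪ Metric.ball vb r) \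
        Box xl xr yb yt) := by
  refine Concl_tr τ₂ (measurableSet_ball.inter (mBox _ _ _ _)) (mU _ _ _ _ _ _ _ _ _) ?_
  have h := main_l yb yt xl xr r (τ₂ vb) (τ₂ vt) (τ₂ vr) (τ₂ vl) hr
    (by rw [τ₂_re, h4]) (by rw [τ₂_re, h3]) (by rw [τ₂_im, h2]) (by rw [τ₂_im, h1])
    (by rw [← τ₂_Box, τ₂_τ₂]; exact hb) (by rw [← τ₂_Box, τ₂_τ₂]; exact ht)
  have e1 : τ₂ ⁻¹' (Metric.ball vb r ∩ Box xl xr yb yt) =
      Metric.ball (τ₂ vb) r ∩ Box yb yt xl xr := by
    ext z
    simp only [mem_preimage, mem_inter_iff, τ₂_ball hr, τ₂_Box]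
  have e2 : τ₂ ⁻¹' ((Metric.ball vl r ∪ Metric.ball vr r ∪ Metric.ball vt r ∪ Metric.ball vb r) \
        Box xl xr yb yt) = (Metric.ball (τ₂ vb) r ∪ Metric.ball (τ₂ vt) r ∪
        Metric.ball (τ₂ vr) r ∪ Metric.ball (τ₂ vl) r) \ Box yb yt xl xr := by
    ext z
    simp only [mem_preimage, mem_diff, mem_union, τ₂_ball hr, τ₂_Box]
    tauto
  rw [e1, e2]
  exact h

theorem main_t (xl xr yb yt r : ℝ) (vl vr vt vb : ℂ) (hr : 0 < r) (h1 : vl.re = xl)
    (h2 : vr.re = xr) (h3 : vt.im = yt) (h4 : vb.im = yb) (ht : vt ∈ Box xl xr yb yt)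
    (hb : vb ∈ Box xl xr yb yt) :
    Concl r (Metric.ball vt r ∩ Box xl xr yb yt)
      ((Metric.ball vl r ∪ Metric.ball vr r ∪ Metric.ball vt r ∪ Metric.ball vb r) \
        Box xl xr yb yt) := by
  refine Concl_tr τ₂ (measurableSet_ball.inter (mBox _ _ _ _)) (mU _ _ _ _ _ _ _ _ _) ?_
  have h := main_r yb yt xl xr r (τ₂ vb) (τ₂ vt) (τ₂ vr) (τ₂ vl) hr
    (by rw [τ₂_re, h4]) (by rw [τ₂_re, h3]) (by rw [τ₂_im, h2]) (by rw [τ₂_im, h1])
    (by rw [← τ₂_Box, τ₂_τ₂]; exact hb) (by rw [← τ₂_Box, τ₂_τ₂]; exact ht)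
  have e1 : τ₂ ⁻¹' (Metric.ball vt r ∩ Box xl xr yb yt) =
      Metric.ball (τ₂ vt) r ∩ Box yb yt xl xr := by
    ext z
    simp only [mem_preimage, mem_inter_iff, τ₂_ball hr, τ₂_Box]
  have e2 : τ₂ ⁻¹' ((Metric.ball vl r ∪ Metric.ball vr r ∪ Metric.ball vt r ∪ Metric.ball vb r) \
        Box xl xr yb yt) = (Metric.ball (τ₂ vb) r ∪ Metric.ball (τ₂ vt) r ∪
        Metric.ball (τ₂ vr) r ∪ Metric.ball (τ₂ vl) r) \ Box yb yt xl xr := by
    ext z
    simp only [mem_preimage, mem_diff, mem_union, τ₂_ball hr, τ₂_Box]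
    tauto
  rw [e1, e2]
  exact h

end OGp

/-- part OG -/
theorem og_thm : S_OG := by
  intro xl xr yb yt r vl vr vt vb v₀ hr h1 h2 h3 h4 hl hrr ht hb hv
  rcases hv with rfl | rfl | rfl | rfl
  · exact OGp.main_l xl xr yb yt r _ vr vt vb hr h1 h2 h3 h4 hl hrr
  · exact OGp.main_r xl xr yb yt r vl _ vt vb hr h1 h2 h3 h4 hl hrr
  · exact OGp.main_t xl xr yb yt r vl vr _ vb hr h1 h2 h3 h4 ht hb
  · exact OGp.main_b xl xr yb yt r vl vr vt _ hr h1 h2 h3 h4 ht hb

end KN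
end
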